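import Pool.Agent.Results.MP_5dd4bb_nt.SparseModuli
import Pool.Agent.Y854.GM.WinV

/-!
# The lower bound for the variance of primes in progressions for ALL the moduli in windows around `α v_n`

From `MP_5dd4bb_nt.SparseModuli`: `G X k` is `G(X, k)`, the sum of `(ψ(X; k, A) - X/φ(k))²` over the reduced residue
classes `A` modulo `k`, and `Good ε k` means: `k ≥ 1` and `G(X, k) ≥ X (log k - 1/2 log X - ε log X)` for ALL real `X ≥ k`.
-/

set_option autoImplicit false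

namespace Pool.Agent.Results.MP_5dd4bb_nt.ModuliInWindows

open Finset Filter Topology MeasureTheory
open Pool.Agent.Results.MP_5dd4bb_nt.SparseModuli (G Good Bad count not_good)

/-- the exponent of convergence of the sequence `v` is at most `τ` -/
def ExpLe (v : ℕ → ℝ) (τ : ℝ) : Prop := ∀ t : ℝ, τ < t → Summable (fun n : ℕ => (v n) ^ (-t))

lemma good_mono {ε ε' : ℝ} (h : ε' ≤ ε) {k : ℕ} (hk : Good ε' k) : Good ε k := by
  refine ⟨hk.1, fun X hX => le_trans ?_ (hk.2 X hX)⟩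
  have hk1 : (1 : ℝ) ≤ k := by exact_mod_cast hk.1
  have hX0 : 0 ≤ X := by linarith
  have hl : 0 ≤ Real.log X := Real.log_nonneg (by linarith)
  apply mul_le_mul_of_nonneg_left _ hX0
  have := mul_le_mul_of_nonneg_right h hl
  linarith

lemma count_real (ε : ℝ) (hε : 0 < ε) : ∃ κ : ℝ, 0 < κ ∧ κ ≤ 1 ∧ ∃ C : ℝ, 0 ≤ C ∧ ∀ (A : ℕ) (y : ℝ), 1 ≤ y →
    {k : ℕ | k ∈ Bad ε ∧ (k : ℝ) ≤ ((A : ℝ) + 1) * y}.Finite ∧
    ({k : ℕ | k ∈ Bad ε ∧ (k : ℝ) ≤ ((A : ℝ) + 1) * y}.ncard : ℝ) ≤ (1 + C * (A + 1)) * y ^ (1 - κ) := by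
  classical
  obtain ⟨η, hη, C, hC⟩ := count ε hε
  refine ⟨min η 1, lt_min hη one_pos, min_le_right _ _, |C|, abs_nonneg C, fun A y hy => ?_⟩
  have hA0 : (0 : ℝ) ≤ A := Nat.cast_nonneg A
  have hz : 0 ≤ ((A : ℝ) + 1) * y := by positivity
  have hz1 : 1 ≤ ((A : ℝ) + 1) * y := by nlinarith
  set X : ℕ := ⌊((A : ℝ) + 1) * y⌋₊ with hX
  have hX1 : 1 ≤ X := Nat.le_floor (by push_cast; exact hz1)
  have hXr : (1 : ℝ) ≤ X := by exact_mod_cast hX1
  have hsub : {k : ℕ | k ∈ Bad ε ∧ (k : ℝ) ≤ ((A : ℝ) + 1) * y} ⊆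
      ((insert 0 ((Ioc 0 X).filter (fun k => k ∈ Bad ε)) : Finset ℕ) : Set ℕ) := by
    rintro k ⟨hk1, hk2⟩
    rw [Finset.mem_coe, mem_insert, mem_filter, mem_Ioc]
    rcases Nat.eq_zero_or_pos k with h0 | h0
    · left; exact h0
    · right; exact ⟨⟨h0, Nat.le_floor hk2⟩, hk1⟩
  refine ⟨(Finset.finite_toSet _).subset hsub, ?_⟩
  have h1 : ({k : ℕ | k ∈ Bad ε ∧ (k : ℝ) ≤ ((A : ℝ) + 1) * y}.ncard : ℝ) ≤
      1 + (((Ioc 0 X).filter (fun k => k ∈ Bad ε)).card : ℝ) := by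
    have h2 := (Set.ncard_le_ncard hsub (Finset.finite_toSet _)).trans_eq (Set.ncard_coe_finset _)
    have h3 := h2.trans (card_insert_le _ _)
    have h4 : ((({k : ℕ | k ∈ Bad ε ∧ (k : ℝ) ≤ ((A : ℝ) + 1) * y}.ncard : ℕ)) : ℝ) ≤
        ((((Ioc 0 X).filter (fun k => k ∈ Bad ε)).card + 1 : ℕ) : ℝ) := by exact_mod_cast h3
    push_cast at h4
    linarith
  have h5 : (((Ioc 0 X).filter (fun k => k ∈ Bad ε)).card : ℝ) ≤ |C| * (A + 1) * y ^ (1 - min η 1) := by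
    have hm : 1 - min η 1 ≥ 0 := by have := min_le_right η 1; linarith
    calc (((Ioc 0 X).filter (fun k => k ∈ Bad ε)).card : ℝ) ≤ C * (X : ℝ) ^ (1 - η) := by
          refine le_trans (le_of_eq ?_) (hC X)
          congr!
      _ ≤ |C| * (X : ℝ) ^ (1 - min η 1) := by
          apply mul_le_mul (le_abs_self C) _ (by positivity) (abs_nonneg C)
          exact Real.rpow_le_rpow_of_exponent_le hXr (by have := min_le_left η 1; linarith)
      _ ≤ |C| * (((A : ℝ) + 1) * y) ^ (1 - min η 1) := by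
          apply mul_le_mul_of_nonneg_left _ (abs_nonneg C)
          exact Real.rpow_le_rpow (by positivity) (Nat.floor_le hz) hm
      _ = |C| * (((A : ℝ) + 1) ^ (1 - min η 1) * y ^ (1 - min η 1)) := by
          rw [Real.mul_rpow (by positivity) (by linarith)]
      _ ≤ |C| * (((A : ℝ) + 1) * y ^ (1 - min η 1)) := by
          apply mul_le_mul_of_nonneg_left _ (abs_nonneg C)
          apply mul_le_mul_of_nonneg_right _ (by positivity)
          calc ((A : ℝ) + 1) ^ (1 - min η 1) ≤ ((A : ℝ) + 1) ^ (1 : ℝ) :=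
                Real.rpow_le_rpow_of_exponent_le (by linarith) (by
                  have : 0 ≤ min η 1 := le_min hη.le zero_le_one
                  linarith)
            _ = _ := Real.rpow_one _
      _ = _ := by ring
  have h6 : (1 : ℝ) ≤ y ^ (1 - min η 1) :=
    Real.one_le_rpow hy (by have := min_le_right η 1; linarith)
  have : (1 + |C| * (A + 1)) * y ^ (1 - min η 1) = y ^ (1 - min η 1) + |C| * (A + 1) * y ^ (1 - min η 1) := by ring
  rw [this]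
  linarith

/-- (1) For every `ε > 0` there is `κ > 0` such that for all sequences `v ≥ 1` of exponent of convergence at most `τ ≥ 0`
and all `θ < 1` there is a set `E` of Hausdorff dimension at most `(1 - κ + τ) / (1 - θ)` such that for each `α > 0`
outside `E` and all but finitely many `n`, ALL the moduli `k` with `|k - α v_n| ≤ v_n ^ θ` satisfy
`G(X, k) ≥ X (log k - 1/2 log X - ε log X)` for ALL real `X ≥ k`.

(2) Let `v ≥ 1` be a sequence of exponent of convergence zero (for example `b ^ n`) and let `θ_n → 0`. For Lebesgue-almost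
every `α > 0`, for all `ε > 0` and all but finitely many `n`, ALL the moduli `k` with `|k - α v_n| ≤ v_n ^ (θ_n)` satisfy
`G(X, k) ≥ X (log k - 1/2 log X - ε log X)` for ALL real `X ≥ k`.

(3) The sequences `(n + 1) ^ a` and `b ^ n` have exponent of convergence at most `1 / a` and `0`. -/
theorem result :
    (∀ ε : ℝ, 0 < ε → ∃ κ : ℝ, 0 < κ ∧ κ ≤ 1 ∧ ∀ (v : ℕ → ℝ) (τ θ : ℝ), (∀ n, 1 ≤ v n) → 0 ≤ τ → ExpLe v τ → θ < 1 →
      ∃ E : Set ℝ, dimH E ≤ ENNReal.ofReal ((1 - κ + τ) / (1 - θ)) ∧ ∀ α : ℝ, 0 < α → α ∉ E →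
        ∃ n₀ : ℕ, ∀ n : ℕ, n₀ ≤ n → ∀ k : ℕ, |(k : ℝ) - α * v n| ≤ (v n) ^ θ → Good ε k) ∧
    (∀ v θ : ℕ → ℝ, (∀ n, 1 ≤ v n) → ExpLe v 0 → Tendsto θ atTop (𝓝 0) →
      ∀ᵐ α : ℝ, 0 < α → ∀ ε : ℝ, 0 < ε →
        ∃ n₀ : ℕ, ∀ n : ℕ, n₀ ≤ n → ∀ k : ℕ, |(k : ℝ) - α * v n| ≤ (v n) ^ θ n → Good ε k) ∧
    (∀ a : ℝ, 0 < a → ExpLe (fun n : ℕ => ((n : ℝ) + 1) ^ a) (1 / a)) ∧
    (∀ b : ℝ, 1 < b → ExpLe (fun n : ℕ => b ^ n) 0) := by
  have part1 : ∀ ε : ℝ, 0 < ε → ∃ κ : ℝ, 0 < κ ∧ κ ≤ 1 ∧ ∀ (v : ℕ → ℝ) (τ θ : ℝ), (∀ n, 1 ≤ v n) → 0 ≤ τ →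
      ExpLe v τ → θ < 1 → ∃ E : Set ℝ, dimH E ≤ ENNReal.ofReal ((1 - κ + τ) / (1 - θ)) ∧ ∀ α : ℝ, 0 < α → α ∉ E →
        ∃ n₀ : ℕ, ∀ n : ℕ, n₀ ≤ n → ∀ k : ℕ, |(k : ℝ) - α * v n| ≤ (v n) ^ θ → Good ε k := by
    intro ε hε
    obtain ⟨κ, hκ, hκ1, C, hC0, hC⟩ := count_real ε hε
    refine ⟨κ, hκ, hκ1, fun v τ θ hv hτ hE hθ => ?_⟩
    obtain ⟨E, hE1, hE2⟩ := Pool.Agent.Y854.GM.windowsV (s := 1 - κ) (fun _ => Bad ε) (fun _ (k : ℕ) => (k : ℝ)) 1 hv hτ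
      hE (by linarith) hθ (by
        intro A ε' hε'
        refine ⟨1 + C * (A + 1), 0, fun n _ => ?_⟩
        obtain ⟨h1, h2⟩ := hC A (v n) (hv n)
        refine ⟨h1, h2.trans ?_⟩
        apply mul_le_mul_of_nonneg_left _ (by positivity)
        exact Real.rpow_le_rpow_of_exponent_le (hv n) (by linarith))
    refine ⟨E, hE1, fun α hα hαE => ?_⟩
    obtain ⟨n₀, hn₀⟩ := hE2 α hα hαE
    refine ⟨n₀, fun n hn k hk => ?_⟩
    by_contra hg
    have h1 := hn₀ n hn k (not_good hg)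
    rw [one_mul] at h1
    exact absurd hk (not_le.2 h1)
  refine ⟨part1, fun v θ hv hE hθ => ?_, fun κ hκ => Pool.Agent.Y854.GM.expLe_pow κ hκ,
    fun b hb => Pool.Agent.Y854.GM.expLe_geom b hb⟩
  choose κ hκ0 hκ1 hκ2 using fun j : ℕ => part1 (1 / ((j : ℝ) + 1)) (by positivity)
  choose E hE1 hE2 using fun j : ℕ => hκ2 j v 0 (κ j / 2) hv le_rfl hE (by linarith [hκ0 j, hκ1 j])
  have hnull : ∀ j, volume (E j) = 0 := by
    intro j
    have h1 : dimH (E j) < 1 := by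
      refine lt_of_le_of_lt (hE1 j) ?_
      have : (1 : ENNReal) = ENNReal.ofReal 1 := by simp
      rw [this]
      refine (ENNReal.ofReal_lt_ofReal_iff (by norm_num)).mpr ?_
      have := hκ0 j
      have := hκ1 j
      rw [div_lt_one (by linarith)]
      linarith
    have h2 := hausdorffMeasure_of_dimH_lt (d := 1) (s := E j) (by exact_mod_cast h1)
    rw [NNReal.coe_one, hausdorffMeasure_real] at h2
    exact h2
  have hae : ∀ᵐ α : ℝ, ∀ j, α ∉ E j := ae_all_iff.2 fun j => compl_mem_ae_iff.2 (hnull j)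
  filter_upwards [hae] with α hα hα0 ε hε
  obtain ⟨j, hj⟩ := exists_nat_one_div_lt hε
  obtain ⟨n₀, hn₀⟩ := hE2 j α hα0 (hα j)
  obtain ⟨n₁, hn₁⟩ := Filter.eventually_atTop.1 (hθ.eventually_le_const (show (0 : ℝ) < κ j / 2 by linarith [hκ0 j]))
  refine ⟨max n₀ n₁, fun n hn k hk => ?_⟩
  refine good_mono hj.le (hn₀ n ((le_max_left _ _).trans hn) k (hk.trans ?_))
  exact Real.rpow_le_rpow_of_exponent_le (hv n) (hn₁ n ((le_max_right _ _).trans hn))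

end Pool.Agent.Results.MP_5dd4bb_nt.ModuliInWindows
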