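import Pool.Agent.Results.MP_5dd4bb_nt.SparseModuli
import Pool.Agent.V11153.NearW

/-!
# The lower bound for the variance of primes in progressions for ALL moduli near the powers of almost every number

From `MP_5dd4bb_nt.SparseModuli`: `G X k` is `G(X, k)`, the sum of `(ψ(X; k, A) - X/φ(k))²` over the reduced residue
classes `A` modulo `k`, and `Good ε k` means: `k ≥ 1` and `G(X, k) ≥ X (log k - 1/2 log X - ε log X)` for ALL real `X ≥ k`.
Let `ν m / log m → ∞`, for example `ν m = m`. For almost every real `x > 1`, for all `ε > 0` there is `θ > 0` such that all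
but finitely many moduli `k` with `|k - x ^ (ν m)| ≤ x ^ (θ ν m)` for some `m` are good.
-/

set_option autoImplicit false

namespace Pool.Agent.Results.MP_5dd4bb_nt.ModuliNearPowers

open Finset Filter
open Pool.Agent.Results.MP_5dd4bb_nt.SparseModuli (G Good Bad count not_good)
open Pool.Agent.V11001.KM (Fast Near)

lemma good_mono {ε ε' : ℝ} (h : ε' ≤ ε) {k : ℕ} (hk : Good ε' k) : Good ε k := by
  refine ⟨hk.1, fun X hX => le_trans ?_ (hk.2 X hX)⟩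
  have hk1 : (1 : ℝ) ≤ k := by exact_mod_cast hk.1
  have hX0 : 0 ≤ X := by linarith
  have hl : 0 ≤ Real.log X := Real.log_nonneg (by linarith)
  apply mul_le_mul_of_nonneg_left _ hX0
  have := mul_le_mul_of_nonneg_right h hl
  linarith

lemma count_real (ε : ℝ) (hε : 0 < ε) : ∃ κ : ℝ, 0 < κ ∧ κ ≤ 1 ∧ ∃ M : ℝ, ∀ Y : ℝ, 1 ≤ Y →
    ({k : ℕ | k ∈ {k : ℕ | ¬ Good ε k} ∧ (k : ℝ) ≤ Y}.ncard : ℝ) ≤ M * Y ^ (1 - κ) := by
  classical
  obtain ⟨η, hη, C, hC⟩ := count ε hε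
  refine ⟨min η 1, lt_min hη one_pos, min_le_right _ _, 1 + |C|, fun Y hY => ?_⟩
  have hY0 : (0 : ℝ) ≤ Y := by linarith
  set X : ℕ := ⌊Y⌋₊ with hX
  have hX1 : 1 ≤ X := Nat.le_floor (by push_cast; exact hY)
  have hXr : (1 : ℝ) ≤ X := by exact_mod_cast hX1
  have hsub : {k : ℕ | k ∈ {k : ℕ | ¬ Good ε k} ∧ (k : ℝ) ≤ Y} ⊆
      ((insert 0 ((Ioc 0 X).filter (fun k => k ∈ Bad ε)) : Finset ℕ) : Set ℕ) := by
    rintro k ⟨hk1, hk2⟩
    rw [Finset.mem_coe, mem_insert, mem_filter, mem_Ioc]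
    rcases Nat.eq_zero_or_pos k with h0 | h0
    · left; exact h0
    · right; exact ⟨⟨h0, Nat.le_floor hk2⟩, not_good hk1⟩
  have h1 : ({k : ℕ | k ∈ {k : ℕ | ¬ Good ε k} ∧ (k : ℝ) ≤ Y}.ncard : ℝ) ≤
      1 + (((Ioc 0 X).filter (fun k => k ∈ Bad ε)).card : ℝ) := by
    have h2 := (Set.ncard_le_ncard hsub (Finset.finite_toSet _)).trans_eq (Set.ncard_coe_finset _)
    have h3 := h2.trans (card_insert_le _ _)
    have h4 : ((({k : ℕ | k ∈ {k : ℕ | ¬ Good ε k} ∧ (k : ℝ) ≤ Y}.ncard : ℕ)) : ℝ) ≤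
        ((((Ioc 0 X).filter (fun k => k ∈ Bad ε)).card + 1 : ℕ) : ℝ) := by exact_mod_cast h3
    push_cast at h4
    linarith
  have h5 : (((Ioc 0 X).filter (fun k => k ∈ Bad ε)).card : ℝ) ≤ |C| * Y ^ (1 - min η 1) := by
    have hm : 1 - min η 1 ≥ 0 := by have := min_le_right η 1; linarith
    calc (((Ioc 0 X).filter (fun k => k ∈ Bad ε)).card : ℝ) ≤ C * (X : ℝ) ^ (1 - η) := by
          refine le_trans (le_of_eq ?_) (hC X)
          congr!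
      _ ≤ |C| * (X : ℝ) ^ (1 - min η 1) := by
          apply mul_le_mul (le_abs_self C) _ (by positivity) (abs_nonneg C)
          exact Real.rpow_le_rpow_of_exponent_le hXr (by have := min_le_left η 1; linarith)
      _ ≤ |C| * Y ^ (1 - min η 1) := by
          apply mul_le_mul_of_nonneg_left _ (abs_nonneg C)
          exact Real.rpow_le_rpow (by positivity) (Nat.floor_le hY0) hm
  have h6 : (1 : ℝ) ≤ Y ^ (1 - min η 1) :=
    Real.one_le_rpow hY (by have := min_le_right η 1; linarith)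
  rw [add_mul, one_mul]
  linarith

/-- **Theorem.** There are exponents `0 < κ(ε) ≤ 1`, `ε > 0`, with the following property. Let `ν m / log m → ∞`, for example
`ν m = m`, and let `U` be a countable set of real numbers. (1) For `ε > 0` and `θ < 1` there is a set `E` of Hausdorff
dimension at most `(1 - κ(ε)) / (1 - θ)` such that for all `x > 1` outside of `E` and all `y > 0` in `U` all but finitely
many moduli `k` with `|k - y x ^ (ν m)| ≤ x ^ (θ ν m)` for some `m` satisfy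
`G(X, k) ≥ X (log k - 1/2 log X - ε log X)` for ALL real `X ≥ k`. (2) For almost every `x > 1` this holds for all `y > 0` in
`U`, ALL `ε > 0` and all `θ < κ(ε)`. -/
theorem result :
    ∃ κ : ℝ → ℝ, (∀ ε, 0 < κ ε ∧ κ ε ≤ 1) ∧ ∀ ν : ℕ → ℝ, Fast ν → ∀ U : Set ℝ, U.Countable →
      (∀ ε θ : ℝ, 0 < ε → θ < 1 → ∃ E : Set ℝ, dimH E ≤ ENNReal.ofReal ((1 - κ ε) / (1 - θ)) ∧
        ∀ x : ℝ, 1 < x → x ∉ E → ∀ y ∈ U, 0 < y → {k : ℕ | ¬ Good ε k ∧ Near ν θ y x (k : ℝ)}.Finite) ∧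
      (∀ᵐ x : ℝ, 1 < x → ∀ y ∈ U, 0 < y → ∀ ε : ℝ, 0 < ε → ∀ θ : ℝ, θ < κ ε →
        {k : ℕ | ¬ Good ε k ∧ Near ν θ y x (k : ℝ)}.Finite) := by
  classical
  choose κ₀ hκ0 hκ1 M hM using fun j : ℕ => count_real (1 / ((j : ℝ) + 1)) (by positivity)
  have hj : ∀ ε : ℝ, 0 < ε → 1 / (((⌈1 / ε⌉₊ : ℕ) : ℝ) + 1) ≤ ε := by
    intro ε hε
    rw [div_le_iff₀ (by positivity)]
    have h1 := Nat.le_ceil (1 / ε)
    have h2 : ε * (1 / ε) = 1 := by field_simp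
    nlinarith
  refine ⟨fun ε => κ₀ ⌈1 / ε⌉₊, fun ε => ⟨hκ0 _, hκ1 _⟩, fun ν hν U hU => ?_⟩
  have key : ∀ j : ℕ, _ := fun j => Pool.Agent.V11153.NearW.nat_near (ι := Unit)
    (fun _ => {k : ℕ | ¬ Good (1 / ((j : ℝ) + 1)) k}) (s := 1 - κ₀ j) (by linarith [hκ1 j]) (fun _ => ⟨M j, hM j⟩) hν U hU
  refine ⟨fun ε θ hε hθ => ?_, ?_⟩
  · obtain ⟨E, hE1, hE2⟩ := (key ⌈1 / ε⌉₊).1 θ hθ
    refine ⟨E, hE1, fun x hx hxE y hy hy0 => (hE2 x hx hxE y hy hy0 ()).subset ?_⟩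
    rintro k ⟨h1, h2⟩
    exact ⟨fun h => h1 (good_mono (hj ε hε) h), h2⟩
  · have hall : ∀ᵐ x : ℝ, ∀ j : ℕ, 1 < x → ∀ θ : ℝ, θ < 1 - (1 - κ₀ j) → ∀ y ∈ U, 0 < y → ∀ _ : Unit,
        {k : ℕ | k ∈ {k : ℕ | ¬ Good (1 / ((j : ℝ) + 1)) k} ∧ Near ν θ y x (k : ℝ)}.Finite :=
      MeasureTheory.ae_all_iff.2 fun j => (key j).2
    filter_upwards [hall] with x hx hx1 y hy hy0 ε hε θ hθ
    refine (hx ⌈1 / ε⌉₊ hx1 θ (by linarith) y hy hy0 ()).subset ?_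
    rintro k ⟨h1, h2⟩
    exact ⟨fun h => h1 (good_mono (hj ε hε) h), h2⟩

end Pool.Agent.Results.MP_5dd4bb_nt.ModuliNearPowers
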