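import Pool.Agent.Results.MP_5dd4bb_nt.ModuliInWindows
import Pool.Agent.H223.PS.Engine

/-!
# The lower bound for the variance of primes in progressions for ALL the moduli in small residue classes

From `MP_5dd4bb_nt.SparseModuli`: `G X k` is `G(X, k)`, the sum of `(ψ(X; k, A) - X/φ(k))²` over the reduced residue
classes `A` modulo `k`, and `Good ε k` means: `k ≥ 1` and `G(X, k) ≥ X (log k - 1/2 log X - ε log X)` for ALL real `X ≥ k`.
-/

set_option autoImplicit false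

namespace Pool.Agent.Results.MP_5dd4bb_nt.PadicModuli

open Finset Filter Topology MeasureTheory
open Pool.Agent.Results.MP_5dd4bb_nt.SparseModuli (G Good Bad count not_good)

/-- For every `ε > 0` there is `κ > 0` such that for every prime `p`, every `σ > 0` there is a subset `E` of the `p`-adic
integers of Hausdorff dimension at most `(1 - κ) / σ` such that for each `α` outside `E` and all large `T` ALL the moduli
`k ≤ T` with `|k - α|_p ≤ T ^ (-σ)`, that is, all the `k ≤ T` which are congruent to `α` modulo `p ^ f`, where `p ^ f` is the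
smallest power of `p` with `p ^ f ≥ T ^ σ`, satisfy `G(X, k) ≥ X (log k - 1/2 log X - ε log X)` for ALL real `X ≥ k`. -/
theorem result : ∀ ε : ℝ, 0 < ε → ∃ κ : ℝ, 0 < κ ∧ κ ≤ 1 ∧ ∀ (p : ℕ) [Fact p.Prime] (σ : ℝ), 0 < σ →
    ∃ E : Set ℤ_[p], dimH E ≤ ENNReal.ofReal ((1 - κ) / σ) ∧ ∀ α : ℤ_[p], α ∉ E →
      ∃ T₀ : ℝ, ∀ T : ℝ, T₀ ≤ T → ∀ k : ℕ, (k : ℝ) ≤ T → ‖(k : ℤ_[p]) - α‖ ≤ T ^ (-σ) → Good ε k := by
  intro ε hε
  obtain ⟨κ, hκ, hκ1, C, hC0, hC⟩ := ModuliInWindows.count_real ε hε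
  refine ⟨κ, hκ, hκ1, fun p _ σ hσ => ?_⟩
  obtain ⟨E, hE1, hE2⟩ := Pool.Agent.H223.PS.padic_nat p (fun _ => Bad ε) (s := 1 - κ) (by linarith) (by
    intro _ ε' hε'
    refine ⟨1 + C, fun X hX => ?_⟩
    obtain ⟨h1, h2⟩ := hC 0 X hX
    simp only [Nat.cast_zero, zero_add, mul_one, one_mul] at h1 h2
    refine ⟨h1, h2.trans ?_⟩
    apply mul_le_mul_of_nonneg_left _ (by positivity)
    exact Real.rpow_le_rpow_of_exponent_le hX (by linarith)) hσ
  refine ⟨E, hE1, fun α hα => ?_⟩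
  obtain ⟨T₀, hT₀⟩ := hE2 α hα 0
  refine ⟨T₀, fun T hT k hk hkα => ?_⟩
  by_contra hg
  exact hT₀ T hT k hk hkα (not_good hg)

end Pool.Agent.Results.MP_5dd4bb_nt.PadicModuli
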