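import Pool.Agent.H25.ClassFin

set_option autoImplicit false

/-!
# The variance of almost primes in the residue classes modulo `Q`, for every modulus

Call `n` good if it has no prime factor up to `Q ^ (1 / r)`, and let `V` be the product of `1 - 1 / p` over these
primes which do not divide `Q`. Let `X = T Q` with `λ = T V` bounded (so `X` is of the order of `Q log Q` if the
density of the primes dividing `Q` is bounded). For EVERY large `Q` the variance of the number of the good integers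
`≤ X` over the reduced residue classes modulo `Q` is equal to the mean value `λ`, all factorial moments are those of
the Poisson law, and the number has the Poisson law.
-/

namespace Pool.Agent.Results.MP_5dd4bb_nt.VarianceLogarithmicRange

open Finset

/-- No prime `p ≤ Q ^ (1 / r)` divides `n`. -/
def Good (Q r n : ℕ) : Prop :=
  ∀ p : ℕ, p.Prime → (p : ℝ) ≤ (Q : ℝ) ^ (1 / (r : ℝ)) → ¬ p ∣ n

/-- The reduced residue classes modulo `Q`, represented in `(u, u + Q]`. -/
def Cl (Q u : ℕ) : Finset ℕ := (Ioc u (u + Q)).filter (fun c => Nat.Coprime c Q)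

open Classical in
/-- The number of the good integers among `c, c + Q, …, c + (T - 1) Q`. -/
noncomputable def W (Q r T c : ℕ) : ℕ := ((range T).filter (fun t => Good Q r (c + t * Q))).card

/-- The product of `1 - 1 / p` over the primes `p ≤ Q ^ (1 / r)` not dividing `Q`. -/
noncomputable def V (Q r : ℕ) : ℝ :=
  ∏ p ∈ (Icc 1 ⌊(Q : ℝ) ^ (1 / (r : ℝ))⌋₊).filter (fun p => p.Prime ∧ ¬ p ∣ Q), (1 - 1 / (p : ℝ))

/-- **Variance, factorial moments and law over the reduced residue classes of every modulus.** -/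
theorem result (K : ℕ) (x₀ ε : ℝ) (hε : 0 < ε) : ∃ r₀ T₀ : ℕ, ∀ r : ℕ, r₀ ≤ r → ∃ Q₀ : ℕ, ∀ Q : ℕ,
    Q₀ ≤ Q → (∀ n : ℕ, n ≠ 0 → n ≤ Q ^ 2 → Good Q r n → n.primeFactorsList.length ≤ 2 * r) ∧
      ∀ u T : ℕ, T₀ ≤ T → T * V Q r ≤ x₀ →
        |∑ c ∈ Cl Q u, ((W Q r T c : ℝ) - T * V Q r) ^ 2 - Q.totient * (T * V Q r)| ≤ ε * Q.totient ∧
        (∀ k ≤ K, |∑ c ∈ Cl Q u, ((W Q r T c).choose k : ℝ) -
          Q.totient * ((T * V Q r) ^ k / k.factorial)| ≤ ε * Q.totient) ∧
        ∀ A : Finset ℕ, |(((Cl Q u).filter (fun c => W Q r T c ∈ A)).card : ℝ) -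
          Q.totient * ∑ j ∈ A, Real.exp (-(T * V Q r)) * (T * V Q r) ^ j / j.factorial| ≤
          ε * Q.totient := by
  classical
  obtain ⟨r0, T0, h⟩ := Pool.Agent.H25.ClassFin.final K x₀ ε hε
  refine ⟨r0, T0, ?_⟩
  intro r hr
  obtain ⟨d0, hd0⟩ := h r hr
  refine ⟨d0, ?_⟩
  intro Q hQ
  obtain ⟨h1, h2⟩ := hd0 Q hQ
  refine ⟨h1, fun u T hT hTV => ?_⟩
  obtain ⟨a, b, c⟩ := h2 u T hT hTV
  exact ⟨b, a, c⟩

end Pool.Agent.Results.MP_5dd4bb_nt.VarianceLogarithmicRange
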